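import Pool.Agent.Helper14.FO.Defs

/-! `ST_COV`: covering by products of independent sets. -/

set_option autoImplicit false

namespace Pool.Agent.Helper14.FO

open Finset

theorem st_COV : ST_COV := by
  classical
  intro W _ Y χ hχ hU n c hlt
  obtain ⟨J, hJ, hJn, I, hI, hcard⟩ := hU
  have hχ0 : 0 < χ := lt_of_lt_of_le one_pos hχ
  have hχn : 0 < χ ^ n := by positivity
  have hχn1 : 1 ≤ χ ^ n := one_le_pow₀ hχ
  have hJ0 : (0 : ℝ) < Fintype.card J := by exact_mod_cast Fintype.card_pos
  set In : (Fin n → J) → (Fin n → W) → Prop := fun j w => ∀ i, w i ∈ I (j i) with hIn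
  -- averaging
  have havg : ∀ U : Finset (Fin n → W), ∃ j : Fin n → J,
      ((U.filter fun w => ¬ In j w).card : ℝ) ≤ U.card * (1 - (χ ^ n)⁻¹) := by
    intro U
    by_contra hcon
    push Not at hcon
    have h1 : ∀ j : Fin n → J, ((U.filter fun w => In j w).card : ℝ) < U.card * (χ ^ n)⁻¹ := by
      intro j
      have h2 := hcon j
      have h3 := Finset.card_filter_add_card_filter_not (s := U) (fun w => In j w)
      have h4 : ((U.filter fun w => In j w).card : ℝ) + (U.filter fun w => ¬ In j w).card = U.card := by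
        exact_mod_cast h3
      linarith
    have h5 : ∑ j : Fin n → J, ((U.filter fun w => In j w).card : ℝ) <
        ∑ _j : Fin n → J, (U.card : ℝ) * (χ ^ n)⁻¹ :=
      Finset.sum_lt_sum_of_nonempty Finset.univ_nonempty fun j _ => h1 j
    have h6 : ∑ j : Fin n → J, ((U.filter fun w => In j w).card : ℝ) =
        ∑ w ∈ U, ∏ i, (Set.ncard {j | w i ∈ I j} : ℝ) := by
      have e1 : ∀ j : Fin n → J, ((U.filter fun w => In j w).card : ℝ) =
          ∑ w ∈ U, if In j w then (1 : ℝ) else 0 := by
        intro j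
        rw [Finset.sum_ite, Finset.sum_const_zero, add_zero, Finset.sum_const, nsmul_eq_mul, mul_one]
      rw [Finset.sum_congr rfl fun j _ => e1 j, Finset.sum_comm]
      refine Finset.sum_congr rfl fun w _ => ?_
      have e2 : ∀ j : Fin n → J, (if In j w then (1 : ℝ) else 0) =
          ∏ i, if w i ∈ I (j i) then (1 : ℝ) else 0 := by
        intro j
        by_cases h : In j w
        · rw [if_pos h]
          exact (Finset.prod_eq_one fun i _ => if_pos (h i)).symm
        · rw [if_neg h]
          have h' : ∃ i, w i ∉ I (j i) := by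
            by_contra h''
            push Not at h''
            exact h h''
          obtain ⟨i, hi⟩ := h'
          exact (Finset.prod_eq_zero (Finset.mem_univ i) (if_neg hi)).symm
      rw [Finset.sum_congr rfl fun j _ => e2 j]
      have e3 : ∀ i, (Set.ncard {j | w i ∈ I j} : ℝ) = ∑ j : J, if w i ∈ I j then (1 : ℝ) else 0 := by
        intro i
        rw [Finset.sum_ite, Finset.sum_const_zero, add_zero, Finset.sum_const, nsmul_eq_mul, mul_one,
          Set.ncard_eq_toFinset_card']
        congr 2
        ext j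
        simp
      rw [Finset.prod_congr rfl fun i _ => e3 i, Finset.prod_univ_sum]
      rw [Fintype.piFinset_univ]
    have h7 : ∀ w ∈ U, ((Fintype.card J : ℝ) / χ) ^ n ≤ ∏ i, (Set.ncard {j | w i ∈ I j} : ℝ) := by
      intro w _
      have e1 : ((Fintype.card J : ℝ) / χ) ^ n = ∏ _i : Fin n, (Fintype.card J : ℝ) / χ := by
        rw [Finset.prod_const, Finset.card_univ, Fintype.card_fin]
      rw [e1]
      refine Finset.prod_le_prod (fun _ _ => by positivity) fun i _ => ?_
      rw [div_le_iff₀ hχ0, mul_comm]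
      exact hcard (w i)
    have h8 : (U.card : ℝ) * ((Fintype.card J : ℝ) / χ) ^ n ≤
        ∑ w ∈ U, ∏ i, (Set.ncard {j | w i ∈ I j} : ℝ) := by
      rw [← nsmul_eq_mul]
      exact Finset.card_nsmul_le_sum _ _ _ h7
    rw [h6, Finset.sum_const, nsmul_eq_mul, Finset.card_univ, Fintype.card_fun, Fintype.card_fin] at h5
    have h9 : ((Fintype.card J ^ n : ℕ) : ℝ) * ((U.card : ℝ) * (χ ^ n)⁻¹) =
        U.card * ((Fintype.card J : ℝ) / χ) ^ n := by
      push_cast
      rw [div_pow]
      field_simp
    rw [h9] at h5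
    linarith
  -- iteration
  have hit : ∀ (c : ℕ) (U : Finset (Fin n → W)), ∃ js : Fin c → (Fin n → J),
      ((U.filter fun w => ∀ k, ¬ In (js k) w).card : ℝ) ≤ U.card * (1 - (χ ^ n)⁻¹) ^ c := by
    intro c
    induction c with
    | zero =>
      intro U
      refine ⟨fun k => k.elim0, ?_⟩
      rw [pow_zero, mul_one]
      exact_mod_cast Finset.card_filter_le _ _
    | succ c ih =>
      intro U
      obtain ⟨j, hj⟩ := havg U
      obtain ⟨js, hjs⟩ := ih (U.filter fun w => ¬ In j w)
      refine ⟨Fin.cons j js, ?_⟩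
      have e1 : (U.filter fun w => ∀ k, ¬ In ((Fin.cons j js : Fin (c + 1) → (Fin n → J)) k) w) =
          (U.filter fun w => ¬ In j w).filter fun w => ∀ k, ¬ In (js k) w := by
        rw [Finset.filter_filter]
        apply Finset.filter_congr
        intro w _
        rw [Fin.forall_fin_succ]
        rfl
      rw [e1]
      have h1 : 0 ≤ 1 - (χ ^ n)⁻¹ := by
        have : (χ ^ n)⁻¹ ≤ 1 := inv_le_one_of_one_le₀ hχn1
        linarith
      calc _ ≤ _ := hjs
        _ ≤ (U.card * (1 - (χ ^ n)⁻¹)) * (1 - (χ ^ n)⁻¹) ^ c :=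
            mul_le_mul_of_nonneg_right hj (pow_nonneg h1 c)
        _ = _ := by ring
  obtain ⟨js, hjs⟩ := hit c Finset.univ
  have hcu : ((Finset.univ : Finset (Fin n → W)).card : ℝ) = (Fintype.card W : ℝ) ^ n := by
    rw [Finset.card_univ, Fintype.card_fun, Fintype.card_fin]
    push_cast
    rfl
  rw [hcu] at hjs
  have h0 : ((Finset.univ : Finset (Fin n → W)).filter fun w => ∀ k, ¬ In (js k) w).card = 0 := by
    have h1 : (((Finset.univ : Finset (Fin n → W)).filter fun w => ∀ k, ¬ In (js k) w).card : ℝ) < 1 :=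
      lt_of_le_of_lt hjs hlt
    have h2 : ((Finset.univ : Finset (Fin n → W)).filter fun w => ∀ k, ¬ In (js k) w).card < 1 := by
      exact_mod_cast h1
    omega
  rw [Finset.card_eq_zero] at h0
  have hcov : ∀ w : Fin n → W, ∃ k, In (js k) w := by
    intro w
    by_contra hcon
    push Not at hcon
    have : w ∈ (Finset.univ : Finset (Fin n → W)).filter fun w => ∀ k, ¬ In (js k) w :=
      Finset.mem_filter.2 ⟨Finset.mem_univ w, hcon⟩
    rw [h0] at this
    exact Finset.notMem_empty w this
  choose col hcol using hcov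
  refine ⟨col, ?_⟩
  rintro u v ⟨i, hi⟩ heq
  have h1 := hcol u i
  have h2 := hcol v i
  rw [heq] at h1
  exact hI _ _ h1 _ h2 hi

end Pool.Agent.Helper14.FO
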