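import Pool.Agent.Helper14.FO.Defs2

/-! `ST_CVT`: the Lovász number of a graph and vector colourings of the complement. -/

set_option autoImplicit false

namespace Pool.Agent.Helper14.FO

open Finset

theorem cvt_nonempty {n : ℕ} (G : SimpleGraph (Fin n)) : (OrthReps G).Nonempty := by
  refine ⟨(n : ℝ) + 1, by positivity, n + 1, fun x i => if i = x.castSucc then 1 else 0,
    fun _ => 1 / Real.sqrt ((n : ℝ) + 1), ?_, ?_, ?_, ?_⟩
  · intro x
    simp
  · have h : (0 : ℝ) ≤ (n : ℝ) + 1 := by positivity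
    have h' : ((n : ℝ) + 1) ≠ 0 := by positivity
    simp [Real.sq_sqrt h]
    field_simp
  · intro x y hxy _
    have h : ∀ i : Fin (n + 1), (if i = x.castSucc then (1 : ℝ) else 0) *
        (if i = y.castSucc then 1 else 0) = 0 := by
      intro i
      by_cases h1 : i = x.castSucc
      · have h2 : i ≠ y.castSucc := by
          intro h2
          exact hxy (Fin.castSucc_injective _ (h1.symm.trans h2))
        rw [if_neg h2, mul_zero]
      · rw [if_neg h1, zero_mul]
    exact Finset.sum_eq_zero fun i _ => h i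
  · intro x
    have h : (0 : ℝ) ≤ (n : ℝ) + 1 := by positivity
    have h' : ((n : ℝ) + 1) ≠ 0 := by positivity
    have e : ∑ i : Fin (n + 1), 1 / Real.sqrt ((n : ℝ) + 1) *
        (if i = x.castSucc then (1 : ℝ) else 0) = 1 / Real.sqrt ((n : ℝ) + 1) := by
      simp
    rw [e, div_pow, Real.sq_sqrt h, one_pow]
    rw [mul_one_div_cancel h']

theorem cvt_up {n : ℕ} (G : SimpleGraph (Fin n)) (t : ℝ) (ht : t ∈ OrthReps G) : UpT Gᶜ t := by
  obtain ⟨ht0, d, u, c, hu, hc, huv, ha⟩ := ht
  set a : Fin n → ℝ := fun x => ∑ i, c i * u x i with hadef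
  have hapos : ∀ x, a x ≠ 0 := by
    intro x h0
    have h1 := ha x
    have h2 : ∑ i, c i * u x i = 0 := h0
    rw [h2] at h1
    norm_num at h1
  have hat : ∀ x, 1 / a x ^ 2 ≤ t := by
    intro x
    have h1 := ha x
    have h2 : 0 < a x ^ 2 := by have := hapos x; positivity
    rw [div_le_iff₀ h2]
    exact h1
  set w : Fin n → Fin d → ℝ := fun x i => u x i / a x - c i with hw
  have hww : ∀ x y, ∑ i, w x i * w y i = (∑ i, u x i * u y i) / (a x * a y) - 1 := by
    intro x y
    have e1 : ∀ i, w x i * w y i = (u x i * u y i) * (1 / (a x * a y)) - (c i * u x i) * (1 / a x)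
        - (c i * u y i) * (1 / a y) + c i ^ 2 := by
      intro i
      have hx := hapos x
      have hy := hapos y
      simp only [hw]
      field_simp
      ring
    rw [Finset.sum_congr rfl fun i _ => e1 i, Finset.sum_add_distrib, Finset.sum_sub_distrib,
      Finset.sum_sub_distrib, ← Finset.sum_mul, ← Finset.sum_mul, ← Finset.sum_mul, hc]
    have e2 : (∑ i, c i * u x i) * (1 / a x) = 1 := mul_one_div_cancel (hapos x)
    have e3 : (∑ i, c i * u y i) * (1 / a y) = 1 := mul_one_div_cancel (hapos y)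
    rw [e2, e3]
    ring
  refine ⟨d + n, fun x => Fin.append (w x)
    (fun j => if j = x then Real.sqrt (t - 1 / a x ^ 2) else 0), ?_, ?_⟩
  · intro x
    rw [Fin.sum_univ_add]
    simp only [Fin.append_left, Fin.append_right]
    have e1 : ∑ i, w x i ^ 2 = 1 / a x ^ 2 - 1 := by
      have h1 := hww x x
      have h2 : ∑ i, u x i * u x i = 1 := by
        rw [← hu x]
        exact Finset.sum_congr rfl fun i _ => by ring
      rw [h2] at h1
      rw [show (∑ i, w x i ^ 2) = ∑ i, w x i * w x i from
        Finset.sum_congr rfl fun i _ => by ring, h1]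
      ring
    have e2 : ∑ j : Fin n, (if j = x then Real.sqrt (t - 1 / a x ^ 2) else 0) ^ 2
        = t - 1 / a x ^ 2 := by
      rw [Finset.sum_eq_single x]
      · rw [if_pos rfl, Real.sq_sqrt (by linarith [hat x])]
      · intro j _ hj
        rw [if_neg hj]
        norm_num
      · intro h
        exact absurd (Finset.mem_univ x) h
    rw [e1, e2]
    ring
  · intro x y hxy
    have hne : x ≠ y := hxy.ne
    have hna : ¬ G.Adj x y := by
      rw [SimpleGraph.compl_adj] at hxy
      exact hxy.2
    rw [Fin.sum_univ_add]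
    simp only [Fin.append_left, Fin.append_right]
    have e1 : ∑ j : Fin n, (if j = x then Real.sqrt (t - 1 / a x ^ 2) else 0) *
        (if j = y then Real.sqrt (t - 1 / a y ^ 2) else 0) = 0 := by
      refine Finset.sum_eq_zero fun j _ => ?_
      by_cases h1 : j = x
      · have h2 : j ≠ y := fun h2 => hne (h1.symm.trans h2)
        rw [if_neg h2, mul_zero]
      · rw [if_neg h1, zero_mul]
    rw [e1, hww x y, huv x y hne hna]
    ring

theorem cvt_mem {n : ℕ} (G : SimpleGraph (Fin n)) (c : ℝ) (hc : 0 ≤ c) (h : UpT Gᶜ c) :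
    c ∈ OrthReps G := by
  obtain ⟨d, v, hv, hvv⟩ := h
  have hc1 : ∀ x : Fin n, 1 ≤ c := by
    intro x
    have h1 := hv x
    have h2 : 0 ≤ ∑ i, v x i ^ 2 := Finset.sum_nonneg fun i _ => sq_nonneg _
    linarith
  refine ⟨hc, d + 1, fun x => Fin.cons (1 / Real.sqrt c) (fun i => v x i / Real.sqrt c),
    Fin.cons 1 (fun _ => 0), ?_, ?_, ?_, ?_⟩
  · intro x
    have h1 := hc1 x
    have h0 : (0 : ℝ) < c := by linarith
    rw [Fin.sum_univ_succ]
    simp only [Fin.cons_zero, Fin.cons_succ, div_pow, Real.sq_sqrt hc, one_pow]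
    rw [← Finset.sum_div, hv x]
    field_simp
    ring
  · rw [Fin.sum_univ_succ]
    simp
  · intro x y hne hna
    have h1 := hc1 x
    have h0 : (0 : ℝ) < c := by linarith
    have hadj : Gᶜ.Adj x y := by
      rw [SimpleGraph.compl_adj]
      exact ⟨hne, hna⟩
    rw [Fin.sum_univ_succ]
    simp only [Fin.cons_zero, Fin.cons_succ]
    have e1 : ∀ i, v x i / Real.sqrt c * (v y i / Real.sqrt c) = (v x i * v y i) / c := by
      intro i
      rw [div_mul_div_comm, Real.mul_self_sqrt hc]
    rw [Finset.sum_congr rfl fun i _ => e1 i, ← Finset.sum_div, hvv x y hadj,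
      div_mul_div_comm, Real.mul_self_sqrt hc]
    field_simp
    ring
  · intro x
    have h1 := hc1 x
    have h0 : (0 : ℝ) < c := by linarith
    rw [Fin.sum_univ_succ]
    simp only [Fin.cons_zero, Fin.cons_succ, zero_mul, Finset.sum_const_zero, add_zero, one_mul,
      div_pow, Real.sq_sqrt hc, one_pow]
    rw [mul_one_div_cancel h0.ne']

theorem st_CVT : ST_CVT := by
  intro n G c
  refine ⟨fun h => ?_, fun hc h hU => ?_⟩
  · obtain ⟨t, ht, htc⟩ := exists_lt_of_csInf_lt (cvt_nonempty G) h
    exact ⟨t, htc, cvt_up G t ht⟩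
  · have hm := cvt_mem G c hc hU
    have hb : BddBelow (OrthReps G) := ⟨0, fun t ht => ht.1⟩
    exact absurd (csInf_le hb hm) (not_le.mpr h)

end Pool.Agent.Helper14.FO
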