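import Pool.Agent.Helper14.FO.Defs2

/-! `ST_DB2`: density of the parameters of the cube graphs. -/

set_option autoImplicit false

namespace Pool.Agent.Helper14.FO

open Finset

theorem st_DB2 (h : ST_TAIL) : ST_DB2 := by
  intro a b δ ha hab hb hδ
  have ha1 : a < 1 := lt_of_lt_of_le hab hb
  have hb0 : 0 < 1 + b := by linarith
  have ha0 : 0 < 1 + a := by linarith
  set u1 : ℝ := (1 - b) / (1 + b) with hu1
  set u2 : ℝ := (1 - a) / (1 + a) with hu2
  have hu10 : 0 ≤ u1 := div_nonneg (by linarith) hb0.le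
  have hu12 : u1 < u2 := by
    rw [hu1, hu2, div_lt_div_iff₀ hb0 ha0]
    nlinarith
  have hu27 : u2 ≤ 1 / 2 := by
    rw [hu2, div_le_div_iff₀ ha0 (by norm_num)]
    linarith
  set u : ℝ := (u1 + u2) / 2 with hu
  have hu0 : 0 < u := by rw [hu]; linarith
  obtain ⟨P, hP, hPp⟩ := Nat.exists_infinite_primes (max 3 (max ⌈1 / (u2 - u1)⌉₊ ⌈2 / (δ * u ^ 2)⌉₊))
  have hP3 : 3 ≤ P := (le_max_left _ _).trans hP
  have hP1 : 1 / (u2 - u1) ≤ P := (Nat.le_ceil _).trans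
    (by exact_mod_cast ((le_max_left _ _).trans (le_max_right _ _)).trans hP)
  have hP2 : 2 / (δ * u ^ 2) ≤ P := (Nat.le_ceil _).trans
    (by exact_mod_cast ((le_max_right _ _).trans (le_max_right _ _)).trans hP)
  have hPpos : (0 : ℝ) < P := by
    have : (3 : ℝ) ≤ P := by exact_mod_cast hP3
    linarith
  rw [div_le_iff₀ (by linarith)] at hP1
  rw [div_le_iff₀ (by positivity)] at hP2
  set r : ℕ := ⌈2 * P * u⌉₊ with hr
  have hr1 : 2 * P * u ≤ r := Nat.le_ceil _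
  have hr2 : (r : ℝ) < 2 * P * u + 1 := Nat.ceil_lt_add_one (by positivity)
  have hrpos : (0 : ℝ) < r := lt_of_lt_of_le (by positivity) hr1
  have hr1' : 1 ≤ r := by
    have : 0 < r := by exact_mod_cast hrpos
    omega
  have hru2 : (r : ℝ) < 2 * P * u2 := by
    have e1 : 2 * (P : ℝ) * u2 - 2 * P * u = P * (u2 - u1) := by rw [hu]; ring
    linarith
  have hru1 : 2 * P * u1 < (r : ℝ) := by
    have e1 : 2 * (P : ℝ) * u - 2 * P * u1 = P * (u2 - u1) := by rw [hu]; ring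
    linarith
  have h7 : (r : ℝ) ≤ P := by nlinarith
  have h7' : r ≤ P := by exact_mod_cast h7
  have hN : ((2 * P + r : ℕ) : ℝ) = 2 * P + r := by push_cast; ring
  have hNpos : (0 : ℝ) < 2 * P + r := by positivity
  refine ⟨2 * P + r, r, P, hPp, by omega, by omega, by omega, hr1', by omega, ?_, ?_, ?_⟩
  · rw [hN]
    have e1 : 2 * (r : ℝ) / (2 * P + r) < 1 - a := by
      rw [div_lt_iff₀ hNpos]
      rw [hu2, mul_div_assoc', lt_div_iff₀ ha0] at hru2
      nlinarith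
    linarith
  · rw [hN]
    have e1 : 1 - b < 2 * (r : ℝ) / (2 * P + r) := by
      rw [lt_div_iff₀ hNpos]
      rw [hu1, mul_div_assoc', div_lt_iff₀ hb0] at hru1
      nlinarith
    linarith
  · have h1 := h (2 * P + r) P (by omega)
    rw [hN] at h1
    have e1 : (2 * (P : ℝ) + r - 2 * P) = r := by ring
    rw [e1] at h1
    set s : ℝ := ((∑ i ∈ range P, (2 * P + r).choose i : ℕ) : ℝ) with hs
    have h2N : (0 : ℝ) < 2 ^ (2 * P + r) := by positivity
    have h3 : 2 * (2 * (P : ℝ) + r) ≤ δ * (r : ℝ) ^ 2 := by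
      have e2 : (r : ℝ) ≤ 2 * P := by linarith
      have e3 : (2 * P * u) ^ 2 ≤ (r : ℝ) ^ 2 := pow_le_pow_left₀ (by positivity) hr1 2
      have e4 : δ * (2 * P * u) ^ 2 ≤ δ * (r : ℝ) ^ 2 := mul_le_mul_of_nonneg_left e3 hδ.le
      have e5 : δ * (2 * P * u) ^ 2 = 4 * P * (P * (δ * u ^ 2)) := by ring
      have e6 : 4 * (P : ℝ) * 2 ≤ 4 * P * (P * (δ * u ^ 2)) :=
        mul_le_mul_of_nonneg_left hP2 (by positivity)
      linarith
    have hr2pos : (0 : ℝ) < (r : ℝ) ^ 2 := by positivity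
    have h4 : 2 * s * (r : ℝ) ^ 2 ≤ δ * 2 ^ (2 * P + r) * (r : ℝ) ^ 2 := by
      calc 2 * s * (r : ℝ) ^ 2 = 2 * (s * (r : ℝ) ^ 2) := by ring
        _ ≤ 2 * ((2 * (P : ℝ) + r) * 2 ^ (2 * P + r)) := mul_le_mul_of_nonneg_left h1 (by norm_num)
        _ = (2 * (2 * (P : ℝ) + r)) * 2 ^ (2 * P + r) := by ring
        _ ≤ (δ * (r : ℝ) ^ 2) * 2 ^ (2 * P + r) := mul_le_mul_of_nonneg_right h3 h2N.le
        _ = _ := by ring
    exact le_of_mul_le_mul_right h4 hr2pos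

end Pool.Agent.Helper14.FO
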